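import Mathlib

/-!
# Project PA, piece DIR: commuting integral matrices, growth of every element implies uniform
growth (helper572)
-/

set_option autoImplicit false

namespace Pool.Agent.N572.PA

/-- the sum of the absolute values of the entries -/
noncomputable def nn {ρ : ℕ} (X : Matrix (Fin ρ) (Fin ρ) ℤ) : ℝ := ∑ i, ∑ j, |(X i j : ℝ)|

theorem nn_nonneg {ρ : ℕ} (X : Matrix (Fin ρ) (Fin ρ) ℤ) : 0 ≤ nn X :=
  Finset.sum_nonneg fun _ _ => Finset.sum_nonneg fun _ _ => abs_nonneg _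

theorem entry_le {ρ : ℕ} (X : Matrix (Fin ρ) (Fin ρ) ℤ) (i j : Fin ρ) : |(X i j : ℝ)| ≤ nn X := by
  unfold nn
  calc |(X i j : ℝ)| ≤ ∑ j, |(X i j : ℝ)| :=
        Finset.single_le_sum (f := fun j => |(X i j : ℝ)|) (fun _ _ => abs_nonneg _)
          (Finset.mem_univ j)
    _ ≤ ∑ i, ∑ j, |(X i j : ℝ)| :=
        Finset.single_le_sum (f := fun i => ∑ j, |(X i j : ℝ)|)
          (fun _ _ => Finset.sum_nonneg fun _ _ => abs_nonneg _) (Finset.mem_univ i)

theorem nn_mul {ρ : ℕ} (X Y : Matrix (Fin ρ) (Fin ρ) ℤ) : nn (X * Y) ≤ nn X * nn Y := by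
  have h1 : ∀ i j, |((X * Y) i j : ℝ)| ≤ ∑ k, |(X i k : ℝ)| * |(Y k j : ℝ)| := by
    intro i j
    rw [Matrix.mul_apply, Int.cast_sum]
    refine (Finset.abs_sum_le_sum_abs _ _).trans (Finset.sum_le_sum fun k _ => ?_)
    rw [Int.cast_mul, abs_mul]
  have hrow : ∀ k, ∑ j, |(Y k j : ℝ)| ≤ nn Y := fun k =>
    Finset.single_le_sum (f := fun i => ∑ j, |(Y i j : ℝ)|)
      (fun _ _ => Finset.sum_nonneg fun _ _ => abs_nonneg _) (Finset.mem_univ k)
  calc nn (X * Y) ≤ ∑ i, ∑ j, ∑ k, |(X i k : ℝ)| * |(Y k j : ℝ)| :=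
        Finset.sum_le_sum fun i _ => Finset.sum_le_sum fun j _ => h1 i j
    _ = ∑ i, ∑ k, |(X i k : ℝ)| * ∑ j, |(Y k j : ℝ)| := by
        refine Finset.sum_congr rfl fun i _ => ?_
        rw [Finset.sum_comm]
        refine Finset.sum_congr rfl fun k _ => ?_
        rw [Finset.mul_sum]
    _ ≤ ∑ i, ∑ k, |(X i k : ℝ)| * nn Y :=
        Finset.sum_le_sum fun i _ => Finset.sum_le_sum fun k _ =>
          mul_le_mul_of_nonneg_left (hrow k) (abs_nonneg _)
    _ = nn X * nn Y := by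
        unfold nn
        rw [Finset.sum_mul]
        refine Finset.sum_congr rfl fun i _ => ?_
        rw [Finset.sum_mul]

/-- simultaneous approximation, Dirichlet -/
theorem dirichlet {r : ℕ} (T M : ℕ) (hT : 1 ≤ T) (hM : 1 ≤ M) (v : Fin r → ℤ) :
    ∃ (q : ℕ) (p : Fin r → ℤ), 1 ≤ q ∧ q ≤ T ^ r ∧ ∀ i, |(q : ℤ) * v i - M * p i| * T < M := by
  have hMz : (0 : ℤ) < M := by exact_mod_cast hM
  have hTz : (0 : ℤ) < T := by exact_mod_cast hT
  have hbox : ∀ (t : ℕ) (i : Fin r), ((T : ℤ) * (((t : ℤ) * v i) % M)) / M < T := by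
    intro t i
    have h1 : ((t : ℤ) * v i) % M < M := Int.emod_lt_of_pos _ hMz
    rw [Int.ediv_lt_iff_lt_mul hMz]
    exact mul_lt_mul_of_pos_left h1 hTz
  have hbox0 : ∀ (t : ℕ) (i : Fin r), 0 ≤ ((T : ℤ) * (((t : ℤ) * v i) % M)) / M := by
    intro t i
    have h1 : 0 ≤ ((t : ℤ) * v i) % M := Int.emod_nonneg _ hMz.ne'
    exact Int.ediv_nonneg (mul_nonneg hTz.le h1) hMz.le
  let f : Fin (T ^ r + 1) → (Fin r → Fin T) := fun t i =>
    ⟨(((T : ℤ) * ((((t : ℕ) : ℤ) * v i) % M)) / M).toNat, by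
      have h1 := hbox t i
      have h2 := hbox0 t i
      omega⟩
  have hcard : Fintype.card (Fin r → Fin T) < Fintype.card (Fin (T ^ r + 1)) := by simp
  obtain ⟨s, t, hst, hf⟩ := Fintype.exists_ne_map_eq_of_card_lt f hcard
  -- wlog s < t
  have key : ∀ s t : Fin (T ^ r + 1), (s : ℕ) < t → f s = f t →
      ∃ (q : ℕ) (p : Fin r → ℤ), 1 ≤ q ∧ q ≤ T ^ r ∧
        ∀ i, |(q : ℤ) * v i - M * p i| * T < M := by
    intro s t hst hf
    refine ⟨(t : ℕ) - s, fun i => (((t : ℕ) : ℤ) * v i) / M - (((s : ℕ) : ℤ) * v i) / M,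
      by omega, ?_, ?_⟩
    · have := t.2
      omega
    · intro i
      have h1 := congrArg Fin.val (congrFun hf i)
      have h2 : (((T : ℤ) * ((((s : ℕ) : ℤ) * v i) % M)) / M) =
          (((T : ℤ) * ((((t : ℕ) : ℤ) * v i) % M)) / M) := by
        have h3 := hbox0 s i
        have h4 := hbox0 t i
        simp only [f] at h1
        omega
      have e1 := Int.mul_ediv_add_emod (((s : ℕ) : ℤ) * v i) M
      have e2 := Int.mul_ediv_add_emod (((t : ℕ) : ℤ) * v i) M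
      have hcast : (((t : ℕ) - (s : ℕ) : ℕ) : ℤ) = ((t : ℕ) : ℤ) - ((s : ℕ) : ℤ) := by
        rw [Nat.cast_sub hst.le]
      have h5 : (((t : ℕ) - (s : ℕ) : ℕ) : ℤ) * v i -
          M * ((((t : ℕ) : ℤ) * v i) / M - (((s : ℕ) : ℤ) * v i) / M) =
          (((t : ℕ) : ℤ) * v i) % M - (((s : ℕ) : ℤ) * v i) % M := by
        rw [hcast]
        linear_combination e1 - e2
      rw [h5]
      have g1 := Int.mul_ediv_add_emod ((T : ℤ) * ((((s : ℕ) : ℤ) * v i) % M)) M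
      have g2 := Int.mul_ediv_add_emod ((T : ℤ) * ((((t : ℕ) : ℤ) * v i) % M)) M
      have g3 := Int.emod_nonneg ((T : ℤ) * ((((s : ℕ) : ℤ) * v i) % M)) hMz.ne'
      have g4 := Int.emod_nonneg ((T : ℤ) * ((((t : ℕ) : ℤ) * v i) % M)) hMz.ne'
      have g5 := Int.emod_lt_of_pos ((T : ℤ) * ((((s : ℕ) : ℤ) * v i) % M)) hMz
      have g6 := Int.emod_lt_of_pos ((T : ℤ) * ((((t : ℕ) : ℤ) * v i) % M)) hMz
      rw [h2] at g1
      have h6 : |((((t : ℕ) : ℤ) * v i) % M - (((s : ℕ) : ℤ) * v i) % M)| * T =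
          |(T : ℤ) * ((((t : ℕ) : ℤ) * v i) % M) - (T : ℤ) * ((((s : ℕ) : ℤ) * v i) % M)| := by
        rw [← mul_sub, abs_mul, abs_of_pos hTz, mul_comm]
      rw [h6, abs_lt]
      constructor <;> linarith
  rcases lt_or_gt_of_ne (fun h => hst (Fin.ext h) : (s : ℕ) ≠ t) with h | h
  · exact key s t h hf
  · exact key t s h hf.symm

section

variable {ρ r : ℕ} (A : (Fin r → ℤ) → Matrix (Fin ρ) (Fin ρ) ℤ)

/-- the powers of `A v` grow at most like `exp (e m)` -/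
def Gr (v : Fin r → ℤ) (e : ℝ) : Prop := ∃ B : ℝ, ∀ m : ℕ, nn (A (m • v)) ≤ B * Real.exp (e * m)

variable {A}

theorem Gr.nonneg {v : Fin r → ℤ} {e B : ℝ} (h : ∀ m : ℕ, nn (A (m • v)) ≤ B * Real.exp (e * m)) :
    0 ≤ B := by
  have h1 := h 0
  have h2 : 0 ≤ nn (A (0 • v)) := nn_nonneg _
  have h3 := h2.trans h1
  simpa using h3

theorem Gr.mono {v : Fin r → ℤ} {e e' : ℝ} (h : Gr A v e) (hee : e ≤ e') : Gr A v e' := by
  obtain ⟨B, hB⟩ := h
  refine ⟨B, fun m => (hB m).trans ?_⟩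
  refine mul_le_mul_of_nonneg_left (Real.exp_le_exp.2 ?_) (Gr.nonneg hB)
  exact mul_le_mul_of_nonneg_right hee (Nat.cast_nonneg m)

theorem Gr.smul {v : Fin r → ℤ} {e : ℝ} (h : Gr A v e) (k : ℕ) : Gr A (k • v) (k * e) := by
  obtain ⟨B, hB⟩ := h
  refine ⟨B, fun m => ?_⟩
  have h1 := hB (m * k)
  rw [mul_smul] at h1
  refine h1.trans (le_of_eq ?_)
  congr 2
  push_cast
  ring

theorem Gr.add (hadd : ∀ u v, A (u + v) = A u * A v) {u v : Fin r → ℤ} {e e' : ℝ}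
    (h : Gr A u e) (h' : Gr A v e') : Gr A (u + v) (e + e') := by
  obtain ⟨B, hB⟩ := h
  obtain ⟨B', hB'⟩ := h'
  refine ⟨B * B', fun m => ?_⟩
  rw [smul_add, hadd]
  refine (nn_mul _ _).trans ?_
  refine (mul_le_mul (hB m) (hB' m) (nn_nonneg _) ((nn_nonneg _).trans (hB m))).trans
    (le_of_eq ?_)
  rw [add_mul, Real.exp_add]
  ring

theorem Gr.of_le (hadd : ∀ u v, A (u + v) = A u * A v) {v : Fin r → ℤ} {e : ℝ}
    (h : nn (A v) ≤ Real.exp e) : Gr A v e := by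
  refine ⟨nn (A 0), fun m => ?_⟩
  induction m with
  | zero => simp
  | succ m ih =>
    rw [add_smul, one_smul, hadd]
    refine (nn_mul _ _).trans ?_
    refine (mul_le_mul ih h (nn_nonneg _) ((nn_nonneg _).trans ih)).trans (le_of_eq ?_)
    rw [mul_assoc, ← Real.exp_add]
    congr 2
    push_cast
    ring

theorem Gr.div (hadd : ∀ u v, A (u + v) = A u * A v) {v : Fin r → ℤ} {e : ℝ} (he : 0 ≤ e) {k : ℕ}
    (hk : 1 ≤ k) (h : Gr A (k • v) e) : Gr A v (e / k) := by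
  obtain ⟨B, hB⟩ := h
  have hB0 := Gr.nonneg hB
  set C : ℝ := ∑ s ∈ Finset.range k, nn (A (s • v)) with hC
  have hC0 : 0 ≤ C := Finset.sum_nonneg fun _ _ => nn_nonneg _
  have hk0 : (0 : ℝ) < k := by exact_mod_cast hk
  refine ⟨B * C, fun m => ?_⟩
  have h1 : m • v = (m / k) • (k • v) + (m % k) • v := by
    rw [← mul_smul, ← add_smul]
    congr 1
    exact (Nat.div_add_mod' m k).symm
  rw [h1, hadd]
  refine (nn_mul _ _).trans ?_
  have h2 : nn (A ((m % k) • v)) ≤ C :=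
    Finset.single_le_sum (f := fun s => nn (A (s • v))) (fun _ _ => nn_nonneg _)
      (Finset.mem_range.2 (Nat.mod_lt _ hk))
  have h3 : Real.exp (e * ((m / k : ℕ) : ℝ)) ≤ Real.exp (e / k * m) := by
    apply Real.exp_le_exp.2
    have h4 : ((m / k : ℕ) : ℝ) ≤ (m : ℝ) / k := Nat.cast_div_le
    calc e * ((m / k : ℕ) : ℝ) ≤ e * ((m : ℝ) / k) := mul_le_mul_of_nonneg_left h4 he
      _ = e / k * m := by ring
  calc nn (A ((m / k) • (k • v))) * nn (A ((m % k) • v))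
      ≤ (B * Real.exp (e * ((m / k : ℕ) : ℝ))) * C :=
        mul_le_mul (hB _) h2 (nn_nonneg _) ((nn_nonneg _).trans (hB _))
    _ ≤ (B * Real.exp (e / k * m)) * C :=
        mul_le_mul_of_nonneg_right (mul_le_mul_of_nonneg_left h3 hB0) hC0
    _ = B * C * Real.exp (e / k * m) := by ring

theorem Gr.sum (hadd : ∀ u v, A (u + v) = A u * A v) {ι : Type} (S : Finset ι)
    (w : ι → Fin r → ℤ) (e : ι → ℝ) (h : ∀ i ∈ S, Gr A (w i) (e i)) :
    Gr A (∑ i ∈ S, w i) (∑ i ∈ S, e i) := by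
  classical
  induction S using Finset.induction_on with
  | empty =>
    refine ⟨nn (A 0), fun m => ?_⟩
    simp
  | insert i S hi ih =>
    rw [Finset.sum_insert hi, Finset.sum_insert hi]
    exact Gr.add hadd (h i (Finset.mem_insert_self i S))
      (ih fun j hj => h j (Finset.mem_insert_of_mem hj))

/-- the `i`-th unit vector -/
def uv {r : ℕ} (i : Fin r) : Fin r → ℤ := fun j => if j = i then 1 else 0

theorem sum_uv (w : Fin r → ℤ) : ∑ i : Fin r, w i • uv i = w := by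
  funext j
  rw [Finset.sum_apply]
  simp only [Pi.smul_apply, smul_eq_mul, uv, mul_ite, mul_one, mul_zero]
  rw [Finset.sum_ite_eq Finset.univ j w]
  simp

theorem Gr.zsmul {v : Fin r → ℤ} {e : ℝ} (h : Gr A v e) (h' : Gr A (-v) e) (k : ℤ) :
    Gr A (k • v) (|(k : ℝ)| * e) := by
  rcases le_total 0 k with hk | hk
  · obtain ⟨n, hn⟩ := Int.eq_ofNat_of_zero_le hk
    have h2 := h.smul n
    have h3 : k • v = n • v := by rw [hn, natCast_zsmul]
    have h4 : |(k : ℝ)| = (n : ℝ) := by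
      rw [hn, Int.cast_natCast, Nat.abs_cast]
    rw [h3, h4]
    exact h2
  · obtain ⟨n, hn⟩ := Int.eq_ofNat_of_zero_le (neg_nonneg.2 hk)
    have hk' : k = -(n : ℤ) := by linarith
    have h2 := h'.smul n
    have h3 : k • v = n • (-v) := by rw [hk', neg_smul, natCast_zsmul, smul_neg]
    have h4 : |(k : ℝ)| = (n : ℝ) := by
      rw [hk', Int.cast_neg, Int.cast_natCast, abs_neg, Nat.abs_cast]
    rw [h3, h4]
    exact h2

theorem Gr.box (hadd : ∀ u v, A (u + v) = A u * A v) {e : ℝ} (he : 0 ≤ e)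
    (h : ∀ i : Fin r, Gr A (uv i) e) (h' : ∀ i : Fin r, Gr A (-uv i) e)
    (w : Fin r → ℤ) (L : ℝ) (hL : ∀ i, |(w i : ℝ)| ≤ L) : Gr A w (r * e * L) := by
  have h1 : Gr A (∑ i : Fin r, w i • uv i) (∑ i : Fin r, |(w i : ℝ)| * e) :=
    Gr.sum hadd Finset.univ (fun i : Fin r => w i • uv i)
      (fun i => |(w i : ℝ)| * e) (fun i _ => (h i).zsmul (h' i) (w i))
  rw [sum_uv w] at h1
  refine h1.mono ?_
  calc ∑ i : Fin r, |(w i : ℝ)| * e ≤ ∑ _i : Fin r, L * e :=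
        Finset.sum_le_sum fun i _ => mul_le_mul_of_nonneg_right (hL i) he
    _ = r * e * L := by
        rw [Finset.sum_const, Finset.card_univ, Fintype.card_fin, nsmul_eq_mul]
        ring

end

/-- DIR -/
theorem dir
    (hgap : ∀ ρ : ℕ, ∃ ε : ℝ, 0 < ε ∧ ∀ A : Matrix (Fin ρ) (Fin ρ) ℤ,
      (∃ B : ℝ, ∀ (m : ℕ) (i j : Fin ρ), |((A ^ m) i j : ℝ)| ≤ B * Real.exp (ε * m)) →
      ∀ δ : ℝ, 0 < δ → ∃ B : ℝ, ∀ (m : ℕ) (i j : Fin ρ),
        |((A ^ m) i j : ℝ)| ≤ B * Real.exp (δ * m)) :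
    ∀ (ρ r : ℕ), 0 < r → ∀ A : (Fin r → ℤ) → Matrix (Fin ρ) (Fin ρ) ℤ,
    A 0 = 1 → (∀ u v, A (u + v) = A u * A v) →
    (∀ v, v ≠ 0 → ∃ δ : ℝ, 0 < δ ∧ ∀ B : ℝ, ∃ (m : ℕ) (i j : Fin ρ),
      B * Real.exp (δ * m) < |((A v ^ m) i j : ℝ)|) →
    ∃ c δ : ℝ, 0 < c ∧ 0 < δ ∧ ∀ v, c * Real.exp (δ * ∑ i, |(v i : ℝ)|) ≤
      ∑ i, ∑ j, |(A v i j : ℝ)| := by
  classical
  intro ρ r hr A hA0 hadd hgrow
  obtain ⟨ε, hε, hgap⟩ := hgap ρ
  have hr0 : (0 : ℝ) < r := by exact_mod_cast hr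
  -- powers
  have hpow : ∀ (v : Fin r → ℤ) (m : ℕ), A (m • v) = A v ^ m := by
    intro v m
    induction m with
    | zero => rw [zero_smul, hA0, pow_zero]
    | succ m ih => rw [add_smul, one_smul, hadd, ih, pow_succ]
  -- no growth smaller than `ε`
  have hno : ∀ v : Fin r → ℤ, v ≠ 0 → ¬ Gr A v ε := by
    rintro v hv ⟨B, hB⟩
    obtain ⟨δ, hδ, hδ2⟩ := hgrow v hv
    obtain ⟨B', hB'⟩ := hgap (A v) ⟨B, fun m i j => by
      have h1 := hB m
      rw [hpow] at h1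
      exact (entry_le _ i j).trans h1⟩ δ hδ
    obtain ⟨m, i, j, h⟩ := hδ2 B'
    exact absurd (hB' m i j) (not_le.2 h)
  -- `ρ ≥ 1`
  have hρ : Nonempty (Fin ρ) := by
    have hv : uv (⟨0, hr⟩ : Fin r) ≠ 0 := by
      intro h
      have := congrFun h ⟨0, hr⟩
      simp [uv] at this
    obtain ⟨δ, _, h⟩ := hgrow _ hv
    obtain ⟨m, i, _, _⟩ := h 0
    exact ⟨i⟩
  have hone : ∀ v, 1 ≤ nn (A v) := by
    intro v
    by_contra hc
    rw [not_le] at hc
    have h1 : A v = 0 := by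
      ext i j
      have h2 := (entry_le (A v) i j).trans_lt hc
      have h3 : |A v i j| < 1 := by exact_mod_cast h2
      rw [Matrix.zero_apply]
      exact Int.abs_lt_one_iff.1 h3
    have h2 := hadd v (-v)
    rw [add_neg_cancel, hA0, h1, zero_mul] at h2
    exact one_ne_zero h2
  -- the constant `b`
  obtain ⟨N0, hN0le, hN01⟩ : ∃ N0 : ℝ, (∀ i : Fin r, nn (A (uv i)) ≤ N0 ∧
      nn (A (-uv i)) ≤ N0) ∧ 1 ≤ N0 := by
    have h0 : ∀ i : Fin r, nn (A (uv i)) + nn (A (-uv i)) ≤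
        ∑ i : Fin r, (nn (A (uv i)) + nn (A (-uv i))) := fun i =>
      Finset.single_le_sum (f := fun i : Fin r => nn (A (uv i)) + nn (A (-uv i)))
        (fun _ _ => add_nonneg (nn_nonneg _) (nn_nonneg _)) (Finset.mem_univ i)
    have h1 : ∀ i : Fin r, nn (A (uv i)) ≤ ∑ i : Fin r, (nn (A (uv i)) + nn (A (-uv i))) ∧
        nn (A (-uv i)) ≤ ∑ i : Fin r, (nn (A (uv i)) + nn (A (-uv i))) := by
      intro i
      have h2 := nn_nonneg (A (uv i))
      have h3 := nn_nonneg (A (-uv i))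
      have h4 := h0 i
      constructor <;> linarith
    exact ⟨_, h1, (hone _).trans (h1 ⟨0, hr⟩).1⟩
  have hlog0 : 0 ≤ Real.log N0 := Real.log_nonneg hN01
  have hexpN : Real.exp (Real.log N0) = N0 := Real.exp_log (by linarith)
  have hw : ∀ (w : Fin r → ℤ) (L : ℝ), (∀ i, |(w i : ℝ)| ≤ L) →
      Gr A w (r * Real.log N0 * L) := fun w L hL =>
    Gr.box hadd hlog0 (fun i => Gr.of_le hadd (by rw [hexpN]; exact (hN0le i).1))
      (fun i => Gr.of_le hadd (by rw [hexpN]; exact (hN0le i).2)) w L hL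
  set b : ℝ := r * Real.log N0 with hb
  have hb0 : 0 ≤ b := mul_nonneg hr0.le hlog0
  -- the choice of `T` and `δ`
  obtain ⟨T, hT⟩ := exists_nat_ge (2 * b / ε + 1)
  have hT1 : (1 : ℝ) ≤ T := by
    have : 0 ≤ 2 * b / ε := by positivity
    linarith
  have hT1' : 1 ≤ T := by exact_mod_cast hT1
  have hbT : b / T ≤ ε / 2 := by
    rw [div_le_iff₀ (by linarith)]
    have h1 : 2 * b / ε ≤ T := by linarith
    rw [div_le_iff₀ hε] at h1
    linarith
  set δ : ℝ := ε / (2 * (T : ℝ) ^ r) with hδ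
  have hTr : (0 : ℝ) < (T : ℝ) ^ r := by positivity
  have hδ0 : 0 < δ := by positivity
  have hTδ : (T : ℝ) ^ r * δ = ε / 2 := by
    rw [hδ]
    field_simp
  -- the claim
  have claim : ∀ v : Fin r → ℤ,
      Real.exp (δ * ((Finset.univ.sup fun i => (v i).natAbs : ℕ) : ℝ)) ≤ nn (A v) := by
    intro v
    by_contra hc
    rw [not_le] at hc
    set M : ℕ := Finset.univ.sup fun i => (v i).natAbs with hM
    have hvM : ∀ i, (v i).natAbs ≤ M := fun i =>
      Finset.le_sup (f := fun i => (v i).natAbs) (Finset.mem_univ i)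
    have hM1 : 1 ≤ M := by
      by_contra h
      have h1 : M = 0 := by omega
      rw [h1, Nat.cast_zero, mul_zero, Real.exp_zero] at hc
      exact absurd (hone v) (not_le.2 hc)
    obtain ⟨i0, -, hi0⟩ := Finset.exists_mem_eq_sup Finset.univ ⟨⟨0, hr⟩, Finset.mem_univ _⟩
      (fun i => (v i).natAbs)
    obtain ⟨q, p, hq1, hqT, hqp⟩ := dirichlet T M hT1' hM1 v
    have hMr : (0 : ℝ) < M := by exact_mod_cast hM1
    have hp : p ≠ 0 := by
      rintro rfl
      have h1 := hqp i0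
      simp only [Pi.zero_apply, mul_zero, sub_zero] at h1
      rw [abs_mul, Nat.abs_cast] at h1
      have h2 : |v i0| = (M : ℤ) := by
        rw [Int.abs_eq_natAbs, hM, hi0]
      rw [h2] at h1
      have h3 : (1 : ℤ) ≤ q := by exact_mod_cast hq1
      have h4 : (1 : ℤ) ≤ T := by exact_mod_cast hT1'
      have h5 : (1 : ℤ) ≤ M := by exact_mod_cast hM1
      nlinarith [mul_pos (by linarith : (0:ℤ) < q) (by linarith : (0:ℤ) < (M:ℤ)),
        mul_le_mul h3 h4 (by norm_num) (by linarith : (0:ℤ) ≤ q)]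
    have hG1 : Gr A (q • v) (q * (δ * M)) := (Gr.of_le hadd hc.le).smul q
    have hG2 : Gr A ((M • p) - q • v) (b * ((M : ℝ) / T)) := by
      apply hw
      intro i
      have h1 := hqp i
      have h2 : |((M • p - q • v) i : ℤ)| * T < M := by
        rw [Pi.sub_apply, Pi.smul_apply, Pi.smul_apply, nsmul_eq_mul, nsmul_eq_mul, abs_sub_comm]
        exact h1
      rw [le_div_iff₀ (by linarith)]
      have h3 : ((|((M • p - q • v) i : ℤ)| * T : ℤ) : ℝ) < ((M : ℤ) : ℝ) := by exact_mod_cast h2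
      rw [Int.cast_mul, Int.cast_abs] at h3
      exact_mod_cast h3.le
    have hG3 : Gr A (M • p) (q * (δ * M) + b * ((M : ℝ) / T)) := by
      have h1 := Gr.add hadd hG1 hG2
      rwa [add_sub_cancel] at h1
    have hG4 := Gr.div hadd (by positivity) hM1 hG3
    refine hno p hp (hG4.mono ?_)
    have h1 : (q * (δ * M) + b * ((M : ℝ) / T)) / M = q * δ + b / T := by
      field_simp
    rw [h1]
    have h2 : (q : ℝ) ≤ (T : ℝ) ^ r := by exact_mod_cast hqT
    have h3 : (q : ℝ) * δ ≤ (T : ℝ) ^ r * δ := mul_le_mul_of_nonneg_right h2 hδ0.le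
    linarith
  refine ⟨1, δ / r, one_pos, by positivity, fun v => ?_⟩
  rw [one_mul]
  refine le_trans (Real.exp_le_exp.2 ?_) (claim v)
  have h1 : ∑ i, |(v i : ℝ)| ≤ r * ((Finset.univ.sup fun i => (v i).natAbs : ℕ) : ℝ) := by
    calc ∑ i, |(v i : ℝ)| ≤ ∑ _i : Fin r, ((Finset.univ.sup fun i => (v i).natAbs : ℕ) : ℝ) := by
          refine Finset.sum_le_sum fun i _ => ?_
          have h2 : (v i).natAbs ≤ Finset.univ.sup fun i => (v i).natAbs :=
            Finset.le_sup (f := fun i => (v i).natAbs) (Finset.mem_univ i)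
          have h3 : |(v i : ℝ)| = ((v i).natAbs : ℝ) := by
            rw [← Int.cast_abs, Int.abs_eq_natAbs, Int.cast_natCast]
          rw [h3]
          exact_mod_cast h2
      _ = r * ((Finset.univ.sup fun i => (v i).natAbs : ℕ) : ℝ) := by
          rw [Finset.sum_const, Finset.card_univ, Fintype.card_fin, nsmul_eq_mul]
  calc δ / r * ∑ i, |(v i : ℝ)|
      ≤ δ / r * (r * ((Finset.univ.sup fun i => (v i).natAbs : ℕ) : ℝ)) :=
        mul_le_mul_of_nonneg_left h1 (by positivity)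
    _ = δ * ((Finset.univ.sup fun i => (v i).natAbs : ℕ) : ℝ) := by
        field_simp

end Pool.Agent.N572.PA
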