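import Mathlib

/-!
# Project PA, piece GAP: integral matrices with very small growth have no growth (helper572)
-/

set_option autoImplicit false

namespace Pool.Agent.N572.PA

open Matrix Polynomial Filter Topology

/-- a constant `ε` which separates the moduli `> 1` of a finite set from `1` -/
theorem exists_eps {S : Set ℂ} (hS : S.Finite) :
    ∃ ε : ℝ, 0 < ε ∧ ε ≤ Real.log 2 ∧ ∀ s ∈ S, ‖s‖ ≤ Real.exp ε → ‖s‖ ≤ 1 := by
  have h1 : ∀ s ∈ S, ∀ᶠ ε : ℝ in 𝓝[>] 0, (‖s‖ ≤ Real.exp ε → ‖s‖ ≤ 1) := by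
    intro s _
    by_cases hs : ‖s‖ ≤ 1
    · exact Eventually.of_forall fun ε _ => hs
    · rw [not_le] at hs
      have h2 : 0 < Real.log ‖s‖ := Real.log_pos hs
      filter_upwards [Ioo_mem_nhdsGT h2] with ε hε h3
      exfalso
      have h4 : Real.log ‖s‖ ≤ ε := by
        rw [← Real.log_exp ε]
        exact Real.log_le_log (by linarith) h3
      linarith [hε.2]
  have h2 := (Filter.eventually_all_finite hS).2 h1
  have hlog : 0 < Real.log 2 := Real.log_pos (by norm_num)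
  obtain ⟨ε, h3, h4⟩ := (h2.and (Ioo_mem_nhdsGT hlog)).exists
  exact ⟨ε, h4.1, h4.2.le, h3⟩

/-- the eigenvalues of a matrix whose powers grow slowly -/
theorem eig_le {ρ : ℕ} (A : Matrix (Fin ρ) (Fin ρ) ℂ) (B ε : ℝ)
    (h : ∀ (m : ℕ) (i j : Fin ρ), ‖(A ^ m) i j‖ ≤ B * Real.exp (ε * m)) (z : ℂ)
    (hz : IsRoot A.charpoly z) : ‖z‖ ≤ Real.exp ε := by
  rw [IsRoot.def, Matrix.eval_charpoly, ← Matrix.exists_mulVec_eq_zero_iff] at hz
  obtain ⟨v, hv0, hv⟩ := hz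
  rw [Matrix.sub_mulVec, sub_eq_zero] at hv
  have hv1 : A *ᵥ v = z • v := by
    rw [← hv]
    ext i
    simp [Matrix.scalar_apply, Matrix.mulVec_diagonal]
  have hvm : ∀ m : ℕ, (A ^ m) *ᵥ v = z ^ m • v := by
    intro m
    induction m with
    | zero => simp
    | succ m ih =>
      rw [pow_succ, ← Matrix.mulVec_mulVec, hv1, Matrix.mulVec_smul, ih, smul_smul, pow_succ,
        mul_comm]
  obtain ⟨i₀, hi₀⟩ : ∃ i, v i ≠ 0 := by
    by_contra hc
    push Not at hc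
    exact hv0 (funext hc)
  obtain ⟨i, _, hi⟩ := Finset.exists_max_image Finset.univ (fun i => ‖v i‖) ⟨i₀, Finset.mem_univ i₀⟩
  have hvi : 0 < ‖v i‖ := (norm_pos_iff.2 hi₀).trans_le (hi i₀ (Finset.mem_univ i₀))
  have hB : ∀ m : ℕ, ‖z‖ ^ m ≤ ρ * B * Real.exp (ε * m) := by
    intro m
    have h1 := congrFun (hvm m) i
    rw [Pi.smul_apply, smul_eq_mul, Matrix.mulVec, dotProduct] at h1
    have h2 : ‖z‖ ^ m * ‖v i‖ ≤ ρ * B * Real.exp (ε * m) * ‖v i‖ := by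
      rw [← norm_pow, ← norm_mul, ← h1]
      refine (norm_sum_le _ _).trans ?_
      calc ∑ j, ‖(A ^ m) i j * v j‖ ≤ ∑ _j : Fin ρ, B * Real.exp (ε * m) * ‖v i‖ := by
            refine Finset.sum_le_sum fun j _ => ?_
            rw [norm_mul]
            have h3 := h m i j
            have h4 : 0 ≤ B * Real.exp (ε * m) := (norm_nonneg _).trans h3
            exact mul_le_mul h3 (hi j (Finset.mem_univ j)) (norm_nonneg _) h4
        _ = ρ * B * Real.exp (ε * m) * ‖v i‖ := by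
            rw [Finset.sum_const, Finset.card_univ, Fintype.card_fin, nsmul_eq_mul]
            ring
    exact le_of_mul_le_mul_right h2 hvi
  by_contra hc
  rw [not_le] at hc
  have hr : 1 < ‖z‖ / Real.exp ε := by rwa [one_lt_div (Real.exp_pos _)]
  obtain ⟨m, hm⟩ := pow_unbounded_of_one_lt (ρ * B) hr
  have h1 := hB m
  rw [div_pow, lt_div_iff₀ (by positivity), ← Real.exp_nat_mul, mul_comm (m : ℝ) ε] at hm
  linarith

/-- Gelfand's formula: a matrix whose eigenvalues have modulus at most `1` has no exponential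
growth -/
theorem growth {ρ : ℕ} (A : Matrix (Fin ρ) (Fin ρ) ℂ)
    (h : ∀ z : ℂ, IsRoot A.charpoly z → ‖z‖ ≤ 1) (δ : ℝ) (hδ : 0 < δ) :
    ∃ B : ℝ, ∀ (m : ℕ) (i j : Fin ρ), ‖(A ^ m) i j‖ ≤ B * Real.exp (δ * m) := by
  letI : NormedRing (Matrix (Fin ρ) (Fin ρ) ℂ) := Matrix.linftyOpNormedRing
  letI : NormedAlgebra ℂ (Matrix (Fin ρ) (Fin ρ) ℂ) := Matrix.linftyOpNormedAlgebra
  have hcomp : CompleteSpace (Matrix (Fin ρ) (Fin ρ) ℂ) := FiniteDimensional.complete ℂ _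
  have hentry : ∀ (M : Matrix (Fin ρ) (Fin ρ) ℂ) (i j : Fin ρ), ‖M i j‖ ≤ ‖M‖ := by
    intro M i j
    have h1 : ‖M i j‖₊ ≤ ‖M‖₊ := by
      rw [Matrix.linfty_opNNNorm_def]
      refine le_trans ?_ (Finset.le_sup (f := fun i => ∑ j, ‖M i j‖₊) (Finset.mem_univ i))
      exact Finset.single_le_sum (f := fun j => ‖M i j‖₊) (fun _ _ => zero_le) (Finset.mem_univ j)
    exact_mod_cast h1
  have hrad : spectralRadius ℂ A ≤ 1 := by
    unfold spectralRadius
    refine iSup₂_le fun z hz => ?_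
    have h1 := h z (Matrix.mem_spectrum_iff_isRoot_charpoly.1 hz)
    exact_mod_cast h1
  have hexp : (1 : ENNReal) < ENNReal.ofReal (Real.exp δ) := by
    rw [← ENNReal.ofReal_one]
    exact (ENNReal.ofReal_lt_ofReal_iff (Real.exp_pos _)).2 (Real.one_lt_exp_iff.2 hδ)
  have htend := spectrum.pow_norm_pow_one_div_tendsto_nhds_spectralRadius A
  have hev := htend.eventually (gt_mem_nhds (lt_of_le_of_lt hrad hexp))
  obtain ⟨N, hN⟩ := eventually_atTop.1 hev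
  -- large `m`
  have hlarge : ∀ m : ℕ, max N 1 ≤ m → ‖A ^ m‖ ≤ Real.exp (δ * m) := by
    intro m hm
    have hm1 : 1 ≤ m := (le_max_right _ _).trans hm
    have h1 := hN m ((le_max_left _ _).trans hm)
    have h2 : ‖A ^ m‖ ^ (1 / (m : ℝ)) < Real.exp δ :=
      (ENNReal.ofReal_lt_ofReal_iff (Real.exp_pos _)).1 h1
    have hm0 : (m : ℝ) ≠ 0 := by
      have : m ≠ 0 := by omega
      exact_mod_cast this
    have h3 : ‖A ^ m‖ = (‖A ^ m‖ ^ (1 / (m : ℝ))) ^ (m : ℕ) := by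
      rw [← Real.rpow_natCast, ← Real.rpow_mul (norm_nonneg _), one_div, inv_mul_cancel₀ hm0,
        Real.rpow_one]
    rw [h3, mul_comm δ, Real.exp_nat_mul]
    exact pow_le_pow_left₀ (by positivity) h2.le m
  -- the constant
  refine ⟨1 + ∑ m ∈ Finset.range (max N 1), ‖A ^ m‖, fun m i j => (hentry _ i j).trans ?_⟩
  have hS : 0 ≤ ∑ m ∈ Finset.range (max N 1), ‖A ^ m‖ := Finset.sum_nonneg fun _ _ => norm_nonneg _
  have he : 1 ≤ Real.exp (δ * m) := Real.one_le_exp (by positivity)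
  rcases le_or_gt (max N 1) m with hm | hm
  · have h1 := hlarge m hm
    nlinarith
  · have h1 : ‖A ^ m‖ ≤ ∑ m ∈ Finset.range (max N 1), ‖A ^ m‖ :=
      Finset.single_le_sum (f := fun m => ‖A ^ m‖) (fun _ _ => norm_nonneg _)
        (Finset.mem_range.2 hm)
    nlinarith

/-- GAP -/
theorem gap : ∀ ρ : ℕ, ∃ ε : ℝ, 0 < ε ∧ ∀ A : Matrix (Fin ρ) (Fin ρ) ℤ,
    (∃ B : ℝ, ∀ (m : ℕ) (i j : Fin ρ), |((A ^ m) i j : ℝ)| ≤ B * Real.exp (ε * m)) →
    ∀ δ : ℝ, 0 < δ → ∃ B : ℝ, ∀ (m : ℕ) (i j : Fin ρ),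
      |((A ^ m) i j : ℝ)| ≤ B * Real.exp (δ * m) := by
  classical
  intro ρ
  set N : ℕ := 2 ^ ρ * ρ.choose (ρ / 2) with hN
  have hU : (Set.Icc (-(N : ℤ)) N).Finite := Set.finite_Icc _ _
  have hfin := bUnion_roots_finite (Int.castRingHom ℂ) ρ hU
  obtain ⟨ε, hε0, hε2, hε⟩ := exists_eps hfin
  refine ⟨ε, hε0, fun A ⟨B, hB⟩ δ hδ => ?_⟩
  set AC : Matrix (Fin ρ) (Fin ρ) ℂ := A.map (Int.castRingHom ℂ) with hAC
  have hpow : ∀ (m : ℕ) (i j : Fin ρ), (AC ^ m) i j = (((A ^ m) i j : ℤ) : ℂ) := by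
    intro m i j
    have h1 : AC ^ m = (A ^ m).map (Int.castRingHom ℂ) := by
      rw [hAC]
      exact (map_pow (Int.castRingHom ℂ).mapMatrix A m).symm
    rw [h1]
    rfl
  have hnorm : ∀ (m : ℕ) (i j : Fin ρ), ‖(AC ^ m) i j‖ = |((A ^ m) i j : ℝ)| := by
    intro m i j
    rw [hpow, Complex.norm_intCast]
  have hchar : AC.charpoly = A.charpoly.map (Int.castRingHom ℂ) := by
    rw [hAC, Matrix.charpoly_map]
  have h1 : ∀ z : ℂ, IsRoot AC.charpoly z → ‖z‖ ≤ Real.exp ε := fun z hz =>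
    eig_le AC B ε (fun m i j => by rw [hnorm]; exact hB m i j) z hz
  have h2 : ∀ z : ℂ, IsRoot AC.charpoly z → ‖z‖ ≤ 2 := by
    intro z hz
    refine (h1 z hz).trans ?_
    calc Real.exp ε ≤ Real.exp (Real.log 2) := Real.exp_le_exp.2 hε2
      _ = 2 := Real.exp_log (by norm_num)
  have hmonic : A.charpoly.Monic := A.charpoly_monic
  have hne : AC.charpoly ≠ 0 := AC.charpoly_monic.ne_zero
  have hcoef : ∀ i, A.charpoly.coeff i ∈ Set.Icc (-(N : ℤ)) N := by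
    intro i
    have h3 := coeff_bdd_of_roots_le (B := 2) (d := ρ) (Int.castRingHom ℂ) hmonic
      (IsAlgClosed.splits _) (by rw [Matrix.charpoly_natDegree_eq_dim]; simp) (by
        intro z hz
        rw [← hchar] at hz
        exact h2 z ((mem_roots hne).1 hz)) i
    rw [coeff_map, eq_intCast, Complex.norm_intCast, max_eq_left (by norm_num : (1:ℝ) ≤ 2)] at h3
    have h4 : |A.charpoly.coeff i| ≤ (N : ℤ) := by
      have h5 : (|A.charpoly.coeff i| : ℝ) ≤ ((N : ℕ) : ℝ) := by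
        refine h3.trans (le_of_eq ?_)
        rw [hN]
        push_cast
        ring
      exact_mod_cast h5
    exact abs_le.1 h4
  have h3 : ∀ z : ℂ, IsRoot AC.charpoly z → ‖z‖ ≤ 1 := by
    intro z hz
    refine hε z ?_ (h1 z hz)
    rw [Set.mem_iUnion₂]
    refine ⟨A.charpoly, ⟨by rw [Matrix.charpoly_natDegree_eq_dim]; simp, hcoef⟩, ?_⟩
    rw [← hchar, Finset.mem_coe, Multiset.mem_toFinset, mem_roots hne]
    exact hz
  obtain ⟨B', hB'⟩ := growth AC h3 δ hδ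
  exact ⟨B', fun m i j => by rw [← hnorm]; exact hB' m i j⟩

end Pool.Agent.N572.PA
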